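import Mathlib

open MvPolynomial

namespace Pool.Agent.Results.MP_487945_co.CharThree

noncomputable def faceIdeal (K : Type) [Field K] {n : ℕ} (D : Set (Finset (Fin n))) :
    Ideal (MvPolynomial (Fin n) K) :=
  Ideal.span {m | ∃ s : Finset (Fin n), s ∉ D ∧ m = ∏ v ∈ s, X v}

noncomputable def momentIdeal {K : Type} [Field K] {n : ℕ} (d : ℕ) (D : Set (Finset (Fin n)))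
    (t : Fin n → K) : Ideal (MvPolynomial (Fin n) K) :=
  faceIdeal K D ⊔ Ideal.span (Set.range fun j : Fin d => ∑ v, C (t v ^ (j.val + 1)) * X v)

def Lefschetz {K : Type} [Field K] {n : ℕ} (d : ℕ) (J : Ideal (MvPolynomial (Fin n) K)) : Prop :=
  ∃ l : MvPolynomial (Fin n) K, l.IsHomogeneous 1 ∧ ∀ k, 2 * k ≤ d →
    (∀ f : MvPolynomial (Fin n) K, f.IsHomogeneous k → l ^ (d - 2 * k) * f ∈ J → f ∈ J) ∧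
    ∀ g : MvPolynomial (Fin n) K, g.IsHomogeneous (d - k) →
      ∃ f : MvPolynomial (Fin n) K, f.IsHomogeneous k ∧ g - l ^ (d - 2 * k) * f ∈ J

def octahedron : Set (Finset (Fin 6)) :=
  {s | ¬ ({0, 3} ⊆ s) ∧ ¬ ({1, 4} ⊆ s) ∧ ¬ ({2, 5} ⊆ s)}

lemma cubes {R : Type} [CommRing R] (I x0 x1 x2 x3 x4 x5 : R) (hp : (3 : R) = 0)
    (hI : I ^ 2 + 1 = 0)
    (h1 : I * x0 + (-I) * x1 + (1 + I) * x2 + (-1) * x3 + 1 * x4 + (-1 - I) * x5 = 0)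
    (h2 : I ^ 2 * x0 + (-I) ^ 2 * x1 + (1 + I) ^ 2 * x2 + (-1) ^ 2 * x3 + 1 ^ 2 * x4 +
      (-1 - I) ^ 2 * x5 = 0)
    (h3 : I ^ 3 * x0 + (-I) ^ 3 * x1 + (1 + I) ^ 3 * x2 + (-1) ^ 3 * x3 + 1 ^ 3 * x4 +
      (-1 - I) ^ 3 * x5 = 0)
    (e0 : x0 * x3 = 0) (e1 : x1 * x4 = 0) (e2 : x2 * x5 = 0) :
    x0 ^ 3 = 0 ∧ x1 ^ 3 = 0 ∧ x2 ^ 3 = 0 ∧ x3 ^ 3 = 0 ∧ x4 ^ 3 = 0 ∧ x5 ^ 3 = 0 := by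
  refine ⟨?_, ?_, ?_, ?_, ?_, ?_⟩
  · linear_combination (1*x0*x2 + (-1)*x0*x1 + (-1)*x0^2 + 1*I*x0*x1 + (-1)*I*x0^2) * h1 + (1*x0*x1 + (-1)*I*x0*x2 + (-1)*I*x0*x1 + 1*I*x0^2) * h2 + ((-1)*x0*x2 + 1*x0*x1 + 1*x0^2 + 1*I*x0*x2) * h3 + ((-1)*x1 + (-1)*I*x2 + (-1)*I*x1 + 1*I*x0) * e0 + ((-1)*x0) * e1 + ((-1)*x0) * e2 + (1*x0*x2*x5 + 3*x0*x2^2 + 5*x0*x1*x5 + (-4)*x0*x1*x2 + (-3)*x0^2*x2 + (-3)*x0^2*x1 + 1*x0^3 + 3*I*x0*x2*x5 + (-1)*I*x0*x2^2 + 2*I*x0*x1*x5 + 2*I*x0*x1^2 + (-2)*I*x0^3 + 1*I^2*x0*x2*x5 + (-1)*I^2*x0*x2^2 + 1*I^2*x0*x1*x2 + (-1)*I^2*x0^2*x2) * hI + ((-1)*x0*x2^2 + (-2)*x0*x1*x5 + 1*x0*x1*x2 + 1*x0^2*x2 + 1*x0^2*x1 + (-1)*I*x0*x2*x5 + 1*I*x0*x2*x3 + 1*I*x0*x2^2 + 1*I*x0*x1*x3 + (-1)*I*x0*x1*x2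 + (-1)*I*x0*x1^2 + (-1)*I*x0^2*x3 + (-1)*I*x0^2*x2 + 1*I*x0^3) * hp
  · linear_combination ((-1)*x1*x2 + (-1)*x1^2 + (-1)*x0*x1 + (-1)*I*x1*x2) * h1 + (1*x0*x1 + (-1)*I*x1*x2 + (-1)*I*x1^2 + 1*I*x0*x1) * h2 + (1*x1*x2 + 1*x1^2 + 1*x0*x1 + (-1)*I*x1^2 + 1*I*x0*x1) * h3 + ((-1)*x1) * e0 + ((-1)*x0 + (-1)*I*x2 + (-1)*I*x1 + 1*I*x0) * e1 + ((-1)*x1) * e2 + (4*x1*x2*x5 + 3*x1^2*x5 + 1*x1^3 + 2*x0*x1*x5 + (-7)*x0*x1*x2 + (-3)*x0*x1^2 + 2*I*x1*x2*x5 + (-1)*I*x1^2*x5 + 5*I*x1^2*x2 + 2*I*x1^3 + 3*I*x0*x1*x5 + (-5)*I*x0*x1*x2 + (-2)*I*x0^2*x1 + (-1)*I^2*x1^2*x5 + 1*I^2*x1^2*x2 + (-1)*I^2*x1^3 + 1*I^2*x0*x1*x5 + (-1)*I^2*x0*x1*x2 + 2*I^2*x0*x1^2 + (-1)*I^2*x0^2*x1) * hI + ((-1)*x1*x2*x5 + (-1)*x1^2*x5 + (-1)*x0*x1*x5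 + 2*x0*x1*x2 + 1*x0*x1^2 + 1*I*x1*x2*x4 + 1*I*x1^2*x5 + 1*I*x1^2*x4 + (-2)*I*x1^2*x2 + (-1)*I*x1^3 + (-1)*I*x0*x1*x5 + (-1)*I*x0*x1*x4 + 1*I*x0^2*x1) * hp
  · linear_combination (1*x1*x2 + 1*x0*x2 + 1*I*x2^2 + (-1)*I*x1*x2 + (-1)*I*x0*x2) * h1 + (1*I*x1*x2 + (-1)*I*x0*x2) * h2 + ((-1)*x1*x2 + (-1)*x0*x2 + (-1)*I*x2^2 + (-1)*I*x1*x2 + (-1)*I*x0*x2) * h3 + ((-1)*I*x2) * e0 + (1*I*x2) * e1 + (1*x2 + (-1)*x1 + 1*x0) * e2 + ((-1)*x2^2*x5 + 1*x2^3 + (-8)*x1*x2*x5 + 6*x1*x2^2 + (-4)*x0*x2*x5 + 6*x0*x2^2 + (-3)*I*x2^2*x5 + 3*I*x2^3 + (-5)*I*x1*x2*x5 + 3*I*x1*x2^2 + (-2)*I*x1^2*x2 + (-3)*I*x0*x2*x5 + 5*I*x0*x2^2 + 2*I*x0^2*x2 + (-1)*I^2*x2^2*x5 + 1*I^2*x2^3 + (-1)*I^2*x1*x2*x5 + (-1)*I^2*x1^2*x2 + (-1)*I^2*x0*x2*x5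 + 2*I^2*x0*x2^2 + 1*I^2*x0^2*x2) * hI + (3*x1*x2*x5 + (-2)*x1*x2^2 + 1*x0*x2*x5 + (-2)*x0*x2^2 + 1*I*x2^2*x5 + (-1)*I*x2^3 + (-1)*I*x1*x2*x3 + 1*I*x1^2*x2 + 1*I*x0*x2*x4 + (-1)*I*x0^2*x2) * hp
  · linear_combination (1*x3^2 + 1*x2*x3 + (-1)*x1*x3 + 1*x1^2 + (-1)*x0*x3 + 1*x0*x2 + 1*x0*x1 + (-1)*I*x3^2 + 1*I*x2*x3 + 1*I*x2^2 + (-1)*I*x0*x3 + 1*I*x0*x2 + (-1)*I*x0*x1) * h1 + ((-1)*x3^2 + 1*x2^2 + (-1)*x1*x3 + (-1)*x1*x2 + (-1)*x1^2 + 1*x0*x2 + 1*x0*x1 + (-1)*I*x2*x3 + (-1)*I*x1*x3 + 1*I*x0*x3) * h2 + ((-1)*x2*x3 + (-1)*x2^2 + (-1)*x1*x3 + 1*x1*x2 + 1*x1^2 + 1*x0*x3 + 1*x0*x2 + 1*x0*x1 + 1*I*x3^2 + (-1)*I*x2^2 + 1*I*x1*x3 + 1*I*x1*x2 + 1*I*x1^2 + (-1)*I*x0*x2) * h3 + ((-1)*x0) * e0 + ((-1)*x1 + (-1)*I*x2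 + (-1)*I*x1 + 1*I*x0) * e1 + ((-1)*x1 + (-1)*I*x2 + (-1)*I*x1 + 1*I*x0) * e2 + (2*x3^2*x5 + (-5)*x2^2*x5 + 4*x2^2*x3 + 3*x2^3 + 2*x1*x3*x5 + (-1)*x1*x3^2 + 6*x1*x2*x5 + 5*x1*x2*x3 + (-3)*x1*x2^2 + 6*x1^2*x5 + (-4)*x1^2*x2 + 3*x0*x3^2 + 1*x0*x2*x5 + (-5)*x0*x2*x3 + (-6)*x0*x2^2 + 1*x0*x1*x5 + 1*x0*x1*x3 + 1*x0^2*x3 + (-3)*x0^2*x2 + 3*I*x3^2*x5 + (-3)*I*x2*x3^2 + (-4)*I*x2^2*x5 + 2*I*x2^2*x3 + 4*I*x2^3 + 3*I*x1*x3*x5 + 4*I*x1*x2*x5 + (-1)*I*x1*x2*x3 + (-5)*I*x1*x2^2 + 4*I*x1^2*x5 + (-3)*I*x1^2*x2 + 1*I*x1^3 + (-2)*I*x0*x2*x5 + 3*I*x0*x2^2 + 1*I*x0*x1*x5 + 2*I*x0*x1*x3 + (-1)*I*x0*x1*x2 + (-2)*I*x0^2*x3 + (-1)*I*x0^2*x2 + (-1)*I*x0^2*x1 + 1*I^2*x3^2*x5 + (-1)*I^2*x2*x3^2 + (-1)*I^2*x2^2*x5 + 1*I^2*x2^3 +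 1*I^2*x1*x3*x5 + 1*I^2*x1*x3^2 + 1*I^2*x1*x2*x5 + (-1)*I^2*x1*x2*x3 + (-2)*I^2*x1*x2^2 + 1*I^2*x1^2*x5 + 1*I^2*x1^2*x3 + 1*I^2*x1^3 + (-1)*I^2*x0*x3^2 + (-1)*I^2*x0*x2*x5 + 2*I^2*x0*x2^2 + (-1)*I^2*x0*x1*x3 + (-2)*I^2*x0*x1*x2 + (-1)*I^2*x0*x1^2 + 1*I^2*x0^2*x2) * hI + (1*x3^3 + 1*x2^2*x5 + (-2)*x2^2*x3 + (-1)*x2^3 + (-1)*x1*x3*x5 + 1*x1*x3*x4 + (-1)*x1*x2*x5 + 1*x1*x2^2 + (-1)*x1^2*x5 + 1*x1^2*x3 + 1*x1^2*x2 + (-1)*x0*x3^2 + (-1)*x0*x2*x4 + 2*x0*x2*x3 + 1*x0*x2^2 + (-1)*x0*x1*x4 + (-1)*x0*x1*x2 + 1*x0^2*x2 + 2*I*x2*x3^2 + (-1)*I*x2^3 + (-1)*I*x1*x3*x5 + 1*I*x1*x3^2 + 1*I*x1*x2*x5 + 3*I*x1*x2*x3 + 1*I*x1*x2^2 + 1*I*x1^2*x5 + (-1)*I*x0*x3^2 + 1*I*x0*x2*x5 + (-1)*I*x0*x2*x3 + (-3)*I*x0*x2^2 + (-1)*I*x0*x1*x3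 + (-1)*I*x0*x1*x2 + 1*I*x0^2*x3) * hp
  · linear_combination (1*x3*x4 + (-1)*x3^2 + (-1)*x2*x4 + 1*x2*x3 + 1*x2^2 + 1*x1*x4 + 1*x1^2 + 1*x0*x4 + 1*x0*x3 + 1*x0*x2 + 1*x0*x1 + (-1)*x0^2 + (-1)*I*x4^2 + 1*I*x3*x4 + (-1)*I*x2*x4 + 1*I*x2*x3 + 1*I*x1*x4 + 1*I*x1*x3 + (-1)*I*x1*x2 + 1*I*x0*x3 + 1*I*x0*x2 + 1*I*x0*x1 + (-1)*I*x0^2) * h1 + (1*x4^2 + 1*x3*x4 + (-1)*x2*x4 + 1*x2*x3 + 1*x2^2 + 1*x1*x4 + 1*x1*x3 + 1*x1*x2 + (-1)*x1^2 + (-1)*x0*x4 + 1*x0*x3 + (-1)*x0*x2 + 1*x0*x1 + 1*I*x4^2 + (-1)*I*x3^2 + (-1)*I*x2*x3 + 1*I*x1*x3 + 1*I*x1*x2 + 1*I*x0*x4 + 1*I*x0*x3 + (-1)*I*x0*x2 + 1*I*x0*x1 + (-1)*I*x0^2) * h2 + (1*x3^2 + 1*x2*x3 + 1*x2^2 + (-1)*x1*x3 + (-1)*x1*x2 + 1*x1^2 + (-1)*x0*x3 + (-1)*x0*x2 + (-1)*x0*x1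 + (-1)*I*x3^2 + 1*I*x2*x3 + 1*I*x2^2 + 1*I*x1*x2 + 1*I*x1^2 + (-1)*I*x0*x3 + (-1)*I*x0*x2 + (-1)*I*x0*x1 + (-1)*I*x0^2) * h3 + ((-1)*x0 + (-1)*I*x2 + (-1)*I*x1 + 1*I*x0) * e0 + ((-1)*x1) * e1 + ((-1)*x0 + (-1)*I*x2 + (-1)*I*x1 + 1*I*x0) * e2 + ((-4)*x4^2*x5 + 3*x3^2*x5 + (-2)*x2*x4^2 + 7*x2*x3*x5 + (-2)*x2*x3*x4 + 1*x2*x3^2 + 4*x2^2*x5 + 2*x2^2*x4 + (-5)*x2^2*x3 + (-6)*x2^3 + (-2)*x1*x4^2 + (-5)*x1*x3*x5 + 1*x1*x3^2 + (-5)*x1*x2*x5 + (-2)*x1*x2*x4 + (-2)*x1*x2*x3 + (-3)*x1*x2^2 + 6*x1^2*x5 + (-7)*x1^2*x2 + (-1)*x0*x4*x5 + (-7)*x0*x3*x5 + (-2)*x0*x3*x4 + (-1)*x0*x3^2 + (-1)*x0*x2*x5 + 1*x0*x2*x4 + 7*x0*x2^2 + (-7)*x0*x1*x5 + (-1)*x0*x1*x4 + (-1)*x0*x1*x3 + 5*x0*x1*x2 + 3*x0*x1^2 + (-1)*x0^2*x5 + 1*x0^2*x4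 + (-3)*x0^2*x3 + 4*x0^2*x2 + (-3)*x0^2*x1 + (-1)*I*x4^2*x5 + (-1)*I*x3^2*x5 + (-1)*I*x2*x4^2 + 5*I*x2*x3*x5 + 3*I*x2*x3^2 + 4*I*x2^2*x5 + (-3)*I*x2^2*x3 + (-4)*I*x2^3 + (-1)*I*x1*x4^2 + (-2)*I*x1*x3*x5 + 2*I*x1*x3^2 + 1*I*x1*x2*x5 + 2*I*x1*x2*x3 + (-2)*I*x1*x2^2 + 4*I*x1^2*x5 + (-2)*I*x1^2*x3 + (-6)*I*x1^2*x2 + 1*I*x1^3 + (-1)*I*x0*x4*x5 + (-1)*I*x0*x4^2 + (-5)*I*x0*x3*x5 + (-3)*I*x0*x2*x5 + (-1)*I*x0*x2*x4 + 3*I*x0*x2*x3 + 4*I*x0*x2^2 + (-5)*I*x0*x1*x5 + (-1)*I*x0*x1*x4 + (-2)*I*x0*x1*x3 + 3*I*x0*x1*x2 + (-3)*I*x0*x1^2 + (-2)*I*x0^2*x5 + (-1)*I*x0^2*x4 + 6*I*x0^2*x2 + 1*I*x0^2*x1 + 1*I*x0^3 + (-1)*I^2*x3^2*x5 + 1*I^2*x2*x3*x5 + 1*I^2*x2*x3^2 + 1*I^2*x2^2*x5 + (-1)*I^2*x2^2*x3 + (-1)*I^2*x2^3 + (-1)*I^2*x1*x3^2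 + 1*I^2*x1*x2*x5 + 1*I^2*x1*x2*x3 + 1*I^2*x1^2*x5 + 1*I^2*x1^3 + (-1)*I^2*x0*x3*x5 + 1*I^2*x0*x3^2 + (-1)*I^2*x0*x2*x5 + (-1)*I^2*x0*x1*x5 + (-1)*I^2*x0*x1*x3 + (-1)*I^2*x0*x1*x2 + (-2)*I^2*x0*x1^2 + (-1)*I^2*x0^2*x5 + 1*I^2*x0^2*x3 + 2*I^2*x0^2*x2 + 1*I^2*x0^3) * hI + (1*x4^2*x5 + (-1)*x3*x4^2 + (-1)*x3^2*x5 + 1*x2*x4^2 + (-2)*x2*x3*x5 + (-1)*x2*x3*x4 + (-1)*x2^2*x5 + (-1)*x2^2*x4 + 1*x2^2*x3 + 1*x2^3 + 1*x1*x3*x5 + (-1)*x1*x3^2 + 1*x1*x2*x5 + 1*x1*x2^2 + (-1)*x1^2*x5 + 1*x1^2*x3 + 2*x1^2*x2 + 1*x0*x4*x5 + 2*x0*x3*x5 + 1*x0*x3*x4 + 1*x0*x2*x5 + (-2)*x0*x2^2 + 2*x0*x1*x5 + (-2)*x0*x1*x2 + (-1)*x0*x1^2 + 1*x0^2*x3 + (-1)*x0^2*x2 + 1*x0^2*x1 + (-1)*I*x4^2*x5 + (-1)*I*x3*x4^2 + 1*I*x3^2*x5 + 1*I*x3^2*x4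 + (-2)*I*x2*x3*x4 + 1*I*x2^2*x4 + (-1)*I*x2^2*x3 + (-1)*I*x2^3 + (-1)*I*x1*x3*x5 + (-1)*I*x1*x3^2 + (-2)*I*x1*x2*x5 + (-2)*I*x1*x2*x4 + (-1)*I*x1*x2*x3 + 1*I*x1*x2^2 + 1*I*x1^2*x5 + 1*I*x1^2*x3 + 1*I*x1^2*x2 + 1*I*x0*x4*x5 + (-1)*I*x0*x3*x4 + 1*I*x0*x2*x5 + 1*I*x0*x2*x4 + (-1)*I*x0*x2*x3 + 1*I*x0*x1*x3 + (-1)*I*x0*x1*x2 + 1*I*x0*x1^2 + 1*I*x0^2*x4 + (-1)*I*x0^2*x3 + (-1)*I*x0^2*x2 + (-1)*I*x0^2*x1) * hp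
  · linear_combination (1*x5^2 + 1*x3*x4 + 1*x3^2 + 1*x2*x5 + (-1)*x2^2 + (-1)*x1*x5 + (-1)*x1*x4 + 1*x1*x3 + (-1)*x1*x2 + 1*x1^2 + 1*x0*x5 + (-1)*x0*x3 + (-1)*x0*x2 + 1*x0^2 + (-1)*I*x5^2 + (-1)*I*x4*x5 + (-1)*I*x4^2 + 1*I*x3*x5 + (-1)*I*x3*x4 + (-1)*I*x3^2 + (-1)*I*x2*x5 + (-1)*I*x2*x3 + (-1)*I*x1*x4 + 1*I*x0*x4 + (-1)*I*x0*x1 + 1*I*x0^2) * h1 + ((-1)*x3*x4 + 1*x3^2 + 1*x2*x4 + (-1)*x2*x3 + (-1)*x1*x4 + 1*x1*x2 + (-1)*x1^2 + (-1)*x0*x4 + (-1)*x0*x3 + (-1)*x0*x2 + 1*x0^2 + 1*I*x4^2 + (-1)*I*x3*x4 + 1*I*x2*x4 + (-1)*I*x2*x3 + (-1)*I*x1*x4 + (-1)*I*x1*x3 + (-1)*I*x1^2 + (-1)*I*x0*x3 + 1*I*x0*x1) * h2 + ((-1)*x2*x3 + (-1)*x1*x3 + (-1)*x1*x2 + 1*x0*x3 + 1*x0*x2 + (-1)*x0*x1 + 1*x0^2 + 1*I*x3^2 + 1*I*x2^2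 + 1*I*x1*x3 + 1*I*x1^2 + (-1)*I*x0*x2 + 1*I*x0*x1 + (-1)*I*x0^2) * h3 + (1*I*x2 + (-1)*I*x1 + 1*I*x0) * e0 + ((-1)*I*x2 + 1*I*x1 + (-1)*I*x0) * e1 + (1*x2) * e2 + ((-1)*x5^3 + (-1)*x4*x5^2 + (-3)*x4^2*x5 + 1*x3*x5^2 + 2*x3*x4*x5 + (-2)*x2*x4*x5 + (-1)*x2*x4^2 + (-2)*x2*x3*x5 + 4*x2*x3*x4 + (-2)*x2*x3^2 + 3*x2^2*x5 + (-3)*x2^2*x4 + 7*x2^2*x3 + (-2)*x2^3 + (-1)*x1*x5^2 + 1*x1*x4*x5 + (-1)*x1*x4^2 + 2*x1*x3*x5 + (-3)*x1*x3^2 + (-5)*x1*x2*x5 + 3*x1*x2*x4 + 3*x1*x2*x3 + 1*x1*x2^2 + 5*x1^2*x5 + (-1)*x1^2*x3 + 1*x0*x5^2 + 3*x0*x4*x5 + 1*x0*x4^2 + 5*x0*x3*x5 + 2*x0*x3*x4 + 1*x0*x3^2 + 3*x0*x2*x5 + (-1)*x0*x2*x4 + 2*x0*x2*x3 + 1*x0*x2^2 + (-4)*x0*x1*x5 + 4*x0*x1*x4 + 2*x0*x1*x3 + 1*x0*x1*x2 + 1*x0^2*x5 + 1*x0^2*x3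 + (-3)*x0^2*x2 + 3*x0^2*x1 + (-3)*x0^3 + (-1)*I*x4^2*x5 + 1*I*x3*x4*x5 + 3*I*x3^2*x5 + (-1)*I*x2*x4*x5 + (-1)*I*x2*x4^2 + 1*I*x2*x3*x4 + (-3)*I*x2*x3^2 + 3*I*x2^2*x5 + (-1)*I*x2^2*x4 + 2*I*x2^2*x3 + (-3)*I*x2^3 + 1*I*x1*x4*x5 + (-1)*I*x1*x4^2 + 3*I*x1*x3*x5 + 1*I*x1*x3*x4 + (-1)*I*x1*x2*x5 + (-1)*I*x1*x2*x3 + 1*I*x1*x2^2 + 4*I*x1^2*x5 + 1*I*x1^2*x4 + (-3)*I*x1^2*x2 + 1*I*x1^3 + (-1)*I*x0*x4^2 + 2*I*x0*x3*x5 + 1*I*x0*x3*x4 + (-2)*I*x0*x2*x5 + (-1)*I*x0*x2*x4 + 2*I*x0*x2*x3 + 2*I*x0*x2^2 + 1*I*x0*x1*x5 + 1*I*x0*x1*x4 + 4*I*x0*x1*x3 + (-1)*I*x0*x1*x2 + (-1)*I*x0*x1^2 + (-2)*I*x0^2*x5 + 1*I*x0^2*x2 + 1*I*x0^2*x1 + (-1)*I*x0^3 + 1*I^2*x3^2*x5 + (-1)*I^2*x2*x3^2 + 1*I^2*x2^2*x5 + (-1)*I^2*x2^3 + 1*I^2*x1*x3*x5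 + 1*I^2*x1*x3^2 + (-1)*I^2*x1*x2*x3 + 1*I^2*x1*x2^2 + 1*I^2*x1^2*x5 + 1*I^2*x1^2*x3 + (-1)*I^2*x1^2*x2 + 1*I^2*x1^3 + (-1)*I^2*x0*x3^2 + (-1)*I^2*x0*x2*x5 + 1*I^2*x0*x1*x5 + (-1)*I^2*x0*x1*x3 + (-2)*I^2*x0*x1*x2 + (-1)*I^2*x0^2*x5 + 2*I^2*x0^2*x2 + (-2)*I^2*x0^2*x1 + 1*I^2*x0^3) * hI + (1*x5^3 + 1*x4^2*x5 + 1*x2*x3*x5 + (-1)*x2*x3*x4 + (-2)*x2^2*x5 + 1*x2^2*x4 + (-2)*x2^2*x3 + 1*x2^3 + 1*x1*x4^2 + (-1)*x1*x3*x5 + 1*x1*x3^2 + 1*x1*x2*x5 + (-2)*x1*x2*x3 + (-1)*x1^2*x5 + 1*x1^2*x3 + (-1)*x0*x4*x5 + (-1)*x0*x3*x5 + (-1)*x0*x2*x5 + 1*x0*x2*x4 + 1*x0*x1*x5 + (-1)*x0*x1*x4 + (-1)*x0*x1*x3 + (-1)*x0^2*x4 + (-1)*x0^2*x1 + 1*x0^3 + (-1)*I*x3^2*x5 + (-1)*I*x2*x3*x5 + 1*I*x2*x3*x4 + (-1)*I*x2^2*x5 + (-1)*I*x2^2*x4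 + 2*I*x2^2*x3 + 1*I*x2^3 + 1*I*x1*x4^2 + (-1)*I*x1*x3*x5 + 1*I*x1*x3^2 + (-1)*I*x1*x2*x5 + 2*I*x1*x2*x4 + 1*I*x1*x2*x3 + (-1)*I*x1^2*x4 + 1*I*x1^2*x3 + 1*I*x1^2*x2 + 1*I*x0*x4*x5 + 1*I*x0*x3*x5 + 1*I*x0*x2*x5 + 1*I*x0*x2*x4 + (-1)*I*x0*x2*x3 + (-1)*I*x0*x1*x5 + (-2)*I*x0*x1*x3 + 1*I*x0*x1*x2 + 1*I*x0^2*x5 + (-2)*I*x0^2*x2) * hp

def tt {K : Type} [Field K] (I : K) : Fin 6 → K := ![I, -I, 1 + I, -1, 1, -1 - I]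

lemma X_cube {K : Type} [Field K] [CharP K 3] (I : K) (hI : I ^ 2 + 1 = 0) (v : Fin 6) :
    (X v : MvPolynomial (Fin 6) K) ^ 3 ∈ momentIdeal 3 octahedron (tt I) := by
  set J := momentIdeal 3 octahedron (tt I) with hJ
  let q := Ideal.Quotient.mk J
  have th : ∀ j : Fin 3, ∑ v, q (C (tt I v)) ^ (j.val + 1) * q (X v) = 0 := by
    intro j
    simp only [← map_pow, ← map_mul, ← map_sum]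
    exact Ideal.Quotient.eq_zero_iff_mem.2 (Ideal.mem_sup_right (Ideal.subset_span ⟨j, rfl⟩))
  have ee : ∀ a b : Fin 6, a ≠ b → {a, b} ∉ octahedron → q (X a) * q (X b) = 0 := by
    intro a b hab h
    rw [← map_mul]
    exact Ideal.Quotient.eq_zero_iff_mem.2 (Ideal.mem_sup_left (Ideal.subset_span
      ⟨{a, b}, h, by rw [Finset.prod_pair hab]⟩))
  have h3 : (3 : MvPolynomial (Fin 6) K ⧸ J) = 0 := by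
    have := congrArg (fun z => q (C z)) (CharP.cast_eq_zero K 3)
    simpa [map_ofNat] using this
  have hI' : q (C I) ^ 2 + 1 = 0 := by
    have := congrArg (fun z => q (C z)) hI
    simpa using this
  have := cubes (q (C I)) (q (X 0)) (q (X 1)) (q (X 2)) (q (X 3)) (q (X 4)) (q (X 5)) h3 hI'
    (by simpa [Fin.sum_univ_six, tt] using th 0) (by simpa [Fin.sum_univ_six, tt] using th 1)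
    (by simpa [Fin.sum_univ_six, tt] using th 2) (ee 0 3 (by decide) fun h => h.1 le_rfl)
    (ee 1 4 (by decide) fun h => h.2.1 le_rfl) (ee 2 5 (by decide) fun h => h.2.2 le_rfl)
  rw [← Ideal.Quotient.eq_zero_iff_mem, map_pow]
  obtain ⟨a0, a1, a2, a3, a4, a5⟩ := this
  fin_cases v
  exacts [a0, a1, a2, a3, a4, a5]

lemma lin_cube {K : Type} [Field K] [CharP K 3] (J : Ideal (MvPolynomial (Fin 6) K))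
    (h : ∀ v, (X v : MvPolynomial (Fin 6) K) ^ 3 ∈ J) (l : MvPolynomial (Fin 6) K)
    (hl : l.IsHomogeneous 1) : l ^ 3 ∈ J := by
  have h' : l ∈ homogeneousSubmodule (Fin 6) K 1 := hl
  rw [homogeneousSubmodule_one_eq_span_X] at h'
  clear hl
  have : Fact (Nat.Prime 3) := ⟨Nat.prime_three⟩
  induction h' using Submodule.span_induction with
  | mem x hx => obtain ⟨a, rfl⟩ := hx; exact h a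
  | zero => simp
  | add x y _ _ hx hy => rw [add_pow_char]; exact J.add_mem hx hy
  | smul r x _ hx => rw [smul_pow, smul_eq_C_mul]; exact J.mul_mem_left _ hx

lemma one_not {K : Type} [Field K] (t : Fin 6 → K) :
    (1 : MvPolynomial (Fin 6) K) ∉ momentIdeal 3 octahedron t := by
  intro h
  have hle : momentIdeal 3 octahedron t ≤ RingHom.ker (eval fun _ => (0 : K)) := by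
    refine sup_le (Ideal.span_le.2 ?_) (Ideal.span_le.2 ?_)
    · rintro _ ⟨s, hs, rfl⟩
      obtain ⟨v, hv⟩ : s.Nonempty := by
        rw [Finset.nonempty_iff_ne_empty]
        rintro rfl
        exact hs (by simp [octahedron])
      simp only [SetLike.mem_coe, RingHom.mem_ker, map_prod, eval_X]
      exact Finset.prod_eq_zero hv rfl
    · rintro _ ⟨j, rfl⟩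
      simp [RingHom.mem_ker]
  simpa [RingHom.mem_ker] using hle h

theorem result (K : Type) [Field K] [CharP K 3] [IsAlgClosed K] :
    ∃ t : Fin 6 → K, Function.Injective t ∧ (∀ v, t v ≠ 0) ∧
      (∀ l : MvPolynomial (Fin 6) K, l.IsHomogeneous 1 → l ^ 3 ∈ momentIdeal 3 octahedron t) ∧
      ¬ Lefschetz 3 (momentIdeal 3 octahedron t) := by
  obtain ⟨I, hI⟩ := IsAlgClosed.exists_pow_nat_eq (-1 : K) (n := 2) (by norm_num)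
  have hI' : I ^ 2 + 1 = 0 := by rw [hI]; ring
  have h3 : (3 : K) = 0 := by simpa using CharP.cast_eq_zero K 3
  have H := lin_cube _ (X_cube I hI')
  have key : ∀ a b : ℤ, ¬ (3 ∣ a ^ 2 + b ^ 2) → (a : K) + b * I ≠ 0 := by
    intro a b h e
    refine h ((CharP.intCast_eq_zero_iff K 3 _).1 ?_)
    push_cast
    linear_combination (a - b * I) * e + b ^ 2 * hI'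
  have et : ∀ v, tt I v = ((![0, 0, 1, -1, 1, -1] : Fin 6 → ℤ) v : K) +
      ((![1, -1, 1, 0, 0, -1] : Fin 6 → ℤ) v : K) * I := by
    intro v; fin_cases v <;> simp [tt, sub_eq_add_neg]
  refine ⟨tt I, fun u v h => ?_, fun v => ?_, H, ?_⟩
  · by_contra hne
    refine key ((![0, 0, 1, -1, 1, -1] : Fin 6 → ℤ) u - (![0, 0, 1, -1, 1, -1] : Fin 6 → ℤ) v)
      ((![1, -1, 1, 0, 0, -1] : Fin 6 → ℤ) u - (![1, -1, 1, 0, 0, -1] : Fin 6 → ℤ) v) ?_ ?_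
    · clear h; revert u v; decide
    · rw [et, et] at h; push_cast; linear_combination h
  · rw [et]; refine key _ _ ?_; revert v; decide
  · rintro ⟨l, hl, h⟩
    exact one_not _ ((h 0 (by norm_num)).1 1 (isHomogeneous_one _ _) (by simpa using H l hl))

end Pool.Agent.Results.MP_487945_co.CharThree
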